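import Pool.Agent.L5helper29.OF.Defs

/-!
# The torus step: diagonal operators kill the relative Tate forms
-/

set_option autoImplicit false
set_option linter.all false

namespace Pool.Agent.L5helper29.OF

open Matrix Module Finset Pool.Agent.L5helper73.CC
open Pool.Agent.L5helper29.AA (RelM both)
open Pool.Agent.L5helper29.AS (mono)
open Pool.Agent.L5helper73.TC (Symp om PP mm actM actM_apply)
open Pool.Agent.L5helper19.TC (vv map_vv vv_equiv)

section lin

variable {K : Type} [Field K] {Y : Type} [AddCommGroup Y] [Module K Y] {I : Type} [Fintype I]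
  [DecidableEq I] {ω : Y →ₗ[K] Y →ₗ[K] K} {P : I → Y →ₗ[K] Y} {st : I → I} {A : I → Finset K} {q : K}
  {b : Basis (Σ i, {x // x ∈ A i}) K Y}

/-- the pairing of a basis vector with its dual is not zero -/
theorem EigBasis.pair_ne (hd : Dat ω P st) (hb : EigBasis ω P st A q b)
    (a : Σ i, {x // x ∈ A i}) : ω (b a) (b (dl st hb.dual a)) ≠ 0 := by
  classical
  have hnt : Nontrivial K := inferInstance
  intro h0
  apply b.ne_zero a
  apply hd.nd
  intro v
  rw [← b.sum_repr v, map_sum]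
  refine Finset.sum_eq_zero fun c _ => ?_
  rw [map_smul]
  by_cases hne : ω (b a) (b c) = 0
  · rw [hne, smul_zero]
  · exfalso
    obtain ⟨h1, h2⟩ := hb.orth a c hne
    have h3 : c = dl st hb.dual a := by
      obtain ⟨i, ⟨x, hx⟩⟩ := c
      simp only at h1 h2
      subst h1
      unfold dl
      have ha := hb.ne_zero a.1 a.2 a.2.2
      have h4 : x = q / a.2 := by
        rw [eq_div_iff ha, mul_comm]
        exact h2
      subst h4
      rfl
    rw [h3] at hne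
    exact hne h0

theorem diag_dual (hd : Dat ω P st) (hb : EigBasis ω P st A q b) {X : Y →ₗ[K] Y}
    (hX : Good ω P X) {z : (Σ i, {x // x ∈ A i}) → K} (hz : ∀ a, X (b a) = z a • b a)
    (a : Σ i, {x // x ∈ A i}) : z (dl st hb.dual a) = - z a := by
  have h1 := hX.skew (b a) (b (dl st hb.dual a))
  rw [hz, hz, map_smul, map_smul, LinearMap.smul_apply, smul_eq_mul, smul_eq_mul] at h1
  have h2 := hb.pair_ne hd a
  have h3 : (z (dl st hb.dual a) + z a) * ω (b a) (b (dl st hb.dual a)) = 0 := by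
    linear_combination h1
  have h4 := (mul_eq_zero.1 h3).resolve_right h2
  linear_combination h4

theorem tr_diag (hd : Dat ω P st) (hb : EigBasis ω P st A q b) {X : Y →ₗ[K] Y}
    {z : (Σ i, {x // x ∈ A i}) → K} (hz : ∀ a, X (b a) = z a • b a) (i : I) :
    tr P X i = ∑ x : {x // x ∈ A i}, z ⟨i, x⟩ := by
  classical
  unfold tr
  rw [LinearMap.trace_eq_matrix_trace K b, Matrix.trace]
  have h1 : ∀ a : Σ i, {x // x ∈ A i}, Matrix.diag (LinearMap.toMatrix b b (X ∘ₗ P i)) a =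
      if a.1 = i then z a else 0 := by
    intro a
    rw [Matrix.diag_apply, LinearMap.toMatrix_apply, LinearMap.comp_apply]
    by_cases ha : a.1 = i
    · rw [if_pos ha, ← ha, hb.mem, hz, map_smul, Finsupp.smul_apply, Basis.repr_self,
        Finsupp.single_eq_same, smul_eq_mul, mul_one]
    · rw [if_neg ha, ← hb.mem a, hd.or _ _ (Ne.symm ha), map_zero, map_zero, Finsupp.zero_apply]
  rw [Finset.sum_congr rfl fun a _ => h1 a, Fintype.sum_sigma, Finset.sum_eq_single i]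
  · refine Finset.sum_congr rfl fun x _ => ?_
    rw [if_pos rfl]
  · intro i' _ hi'
    refine Finset.sum_eq_zero fun x _ => ?_
    rw [if_neg hi']
  · intro h
    exact absurd (Finset.mem_univ _) h

end lin

section count

variable {κ ι : Type} [Fintype κ] [Fintype ι] [DecidableEq ι]

/-- the number of times that a value is taken -/
def cnt (s : κ → ι) (a : ι) : ℕ := (Finset.univ.filter fun k => s k = a).card

theorem prod_cnt {M : Type} [CommMonoid M] (s : κ → ι) (F : ι → M) :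
    ∏ k, F (s k) = ∏ a, F a ^ cnt s a := by
  rw [← Finset.prod_fiberwise Finset.univ s (fun k => F (s k))]
  refine Finset.prod_congr rfl fun a _ => ?_
  unfold cnt
  rw [← Finset.prod_const]
  refine Finset.prod_congr rfl fun k hk => ?_
  rw [(Finset.mem_filter.1 hk).2]

theorem sum_cnt {M : Type} [AddCommMonoid M] (s : κ → ι) (F : ι → M) :
    ∑ k, F (s k) = ∑ a, cnt s a • F a := by
  rw [← Finset.sum_fiberwise Finset.univ s (fun k => F (s k))]
  refine Finset.sum_congr rfl fun a _ => ?_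
  unfold cnt
  rw [← Finset.sum_const]
  refine Finset.sum_congr rfl fun k hk => ?_
  rw [(Finset.mem_filter.1 hk).2]

end count

section spec

variable {J J' : Type} [Fintype J] [DecidableEq J] [Fintype J'] [DecidableEq J'] {Q : ℕ}
  {A : J → Finset ℂ} {A' : J' → Finset ℂ}

theorem prod_spec {M : Type} [CommMonoid M] (G : (Σ i, {x // x ∈ spec Q A A' i}) → M) :
    ∏ a, G a = (∏ j, ((∏ x : {x // x ∈ A j}, G ⟨Sum.inl (j, true), x⟩) *
      ∏ x : {x // x ∈ (A j).image fun x => (Q : ℂ) / x}, G ⟨Sum.inl (j, false), x⟩)) *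
      ∏ i, ∏ x : {x // x ∈ A' i}, G ⟨Sum.inr i, x⟩ := by
  rw [Fintype.prod_sigma, Fintype.prod_sum_type, Fintype.prod_prod_type]
  congr 1
  refine Finset.prod_congr rfl fun j _ => ?_
  rw [Fintype.prod_bool]
  rfl

theorem sum_spec {M : Type} [AddCommMonoid M] (G : (Σ i, {x // x ∈ spec Q A A' i}) → M) :
    ∑ a, G a = (∑ j, ((∑ x : {x // x ∈ A j}, G ⟨Sum.inl (j, true), x⟩) +
      ∑ x : {x // x ∈ (A j).image fun x => (Q : ℂ) / x}, G ⟨Sum.inl (j, false), x⟩)) +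
      ∑ i, ∑ x : {x // x ∈ A' i}, G ⟨Sum.inr i, x⟩ := by
  rw [Fintype.sum_sigma, Fintype.sum_sum_type, Fintype.sum_prod_type]
  congr 1
  refine Finset.sum_congr rfl fun j _ => ?_
  rw [Fintype.sum_bool]
  rfl

/-- the bijection `x ↦ Q / x` -/
noncomputable def quo (hQ : 1 < Q) (j : J) (h0 : ∀ x ∈ A j, x ≠ 0) :
    {x // x ∈ A j} ≃ {x // x ∈ (A j).image fun x => (Q : ℂ) / x} :=
  Equiv.ofBijective (fun x => ⟨(Q : ℂ) / x, Finset.mem_image_of_mem _ x.2⟩) (by
    have hQ0 : (Q : ℂ) ≠ 0 := by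
      exact_mod_cast (by omega : Q ≠ 0)
    constructor
    · intro x y hxy
      have h1 : (Q : ℂ) / x = (Q : ℂ) / y := congrArg Subtype.val hxy
      have hx := h0 x x.2
      have hy := h0 y y.2
      apply Subtype.ext
      rw [div_eq_div_iff hx hy] at h1
      exact (mul_left_cancel₀ hQ0 h1).symm
    · rintro ⟨y, hy⟩
      obtain ⟨x, hx, rfl⟩ := Finset.mem_image.1 hy
      exact ⟨⟨x, hx⟩, rfl⟩)

/-- the involution `x ↦ Q / x` -/
noncomputable def inv' (hQ : 1 < Q) (i : J') (h0 : ∀ x ∈ A' i, x ≠ 0)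
    (hd : ∀ x ∈ A' i, (Q : ℂ) / x ∈ A' i) : {x // x ∈ A' i} ≃ {x // x ∈ A' i} where
  toFun x := ⟨(Q : ℂ) / x, hd x x.2⟩
  invFun x := ⟨(Q : ℂ) / x, hd x x.2⟩
  left_inv x := by
    have hQ0 : (Q : ℂ) ≠ 0 := by
      exact_mod_cast (by omega : Q ≠ 0)
    apply Subtype.ext
    have hx := h0 x x.2
    change (Q : ℂ) / ((Q : ℂ) / x) = x
    field_simp
  right_inv x := by
    have hQ0 : (Q : ℂ) ≠ 0 := by
      exact_mod_cast (by omega : Q ≠ 0)
    apply Subtype.ext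
    have hx := h0 x x.2
    change (Q : ℂ) / ((Q : ℂ) / x) = x
    field_simp

/-- the exponents -/
noncomputable def mex (c : (Σ i, {x // x ∈ spec Q A A' i}) → ℕ) : ∀ o, both A A' o → ℤ
  | Sum.inl j => fun x => (c ⟨Sum.inl (j, true), x⟩ : ℤ) -
      c ⟨Sum.inl (j, false), ⟨(Q : ℂ) / x, Finset.mem_image_of_mem (fun x => (Q : ℂ) / x) x.2⟩⟩
  | Sum.inr i => fun x => c ⟨Sum.inr i, x⟩

theorem prod_mex (hQ : 1 < Q) (h0 : ∀ j, ∀ x ∈ A j, x ≠ 0)
    (c : (Σ i, {x // x ∈ spec Q A A' i}) → ℕ) :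
    ∏ a : Σ i, {x // x ∈ spec Q A A' i}, (a.2 : ℂ) ^ c a =
      (Q : ℂ) ^ (∑ j, ∑ x : {x // x ∈ A j}, c ⟨Sum.inl (j, false), quo hQ j (h0 j) x⟩) *
        mono (both A A') (mex c) := by
  have hQ0 : (Q : ℂ) ≠ 0 := by
    exact_mod_cast (by omega : Q ≠ 0)
  rw [prod_spec]
  unfold mono
  rw [Fintype.prod_sum_type, ← mul_assoc]
  congr 1
  · rw [← Finset.prod_pow_eq_pow_sum, ← Finset.prod_mul_distrib]
    refine Finset.prod_congr rfl fun j _ => ?_
    rw [← (quo hQ j (h0 j)).prod_comp, ← Finset.prod_pow_eq_pow_sum, ← Finset.prod_mul_distrib]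
    change _ = (∏ x : {x // x ∈ A j}, (Q : ℂ) ^ c ⟨Sum.inl (j, false), quo hQ j (h0 j) x⟩) *
      ∏ x : {x // x ∈ A j}, (x : ℂ) ^ ((c ⟨Sum.inl (j, true), x⟩ : ℤ) -
        c ⟨Sum.inl (j, false), quo hQ j (h0 j) x⟩)
    rw [← Finset.prod_mul_distrib]
    refine Finset.prod_congr rfl fun x _ => ?_
    have hx := h0 j x x.2
    change (x : ℂ) ^ c ⟨Sum.inl (j, true), x⟩ *
      ((Q : ℂ) / x) ^ c ⟨Sum.inl (j, false), quo hQ j (h0 j) x⟩ = _
    rw [zpow_sub₀ hx, zpow_natCast, zpow_natCast, div_pow]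
    ring

theorem sum_mex (hQ : 1 < Q) (h0 : ∀ j, ∀ x ∈ A j, x ≠ 0)
    (c z : (Σ i, {x // x ∈ spec Q A A' i}) → ℂ) (c' : (Σ i, {x // x ∈ spec Q A A' i}) → ℕ)
    (hc : ∀ a, c a = c' a)
    (hz : ∀ j (x : {x // x ∈ A j}), z ⟨Sum.inl (j, false), quo hQ j (h0 j) x⟩ =
      - z ⟨Sum.inl (j, true), x⟩) :
    ∑ a, c a * z a = (∑ j, ∑ x : {x // x ∈ A j}, (mex c' (Sum.inl j) x : ℂ) *
      z ⟨Sum.inl (j, true), x⟩) +
      ∑ i, ∑ x : {x // x ∈ A' i}, (mex c' (Sum.inr i) x : ℂ) * z ⟨Sum.inr i, x⟩ := by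
  rw [sum_spec]
  congr 1
  · refine Finset.sum_congr rfl fun j _ => ?_
    rw [← (quo hQ j (h0 j)).sum_comp, ← Finset.sum_add_distrib]
    refine Finset.sum_congr rfl fun x _ => ?_
    rw [hz, hc, hc]
    change _ = (((c' ⟨Sum.inl (j, true), x⟩ : ℤ) -
        c' ⟨Sum.inl (j, false), quo hQ j (h0 j) x⟩ : ℤ) : ℂ) * _
    push_cast
    ring
  · refine Finset.sum_congr rfl fun i _ => Finset.sum_congr rfl fun x _ => ?_
    rw [hc]
    change _ = (((c' ⟨Sum.inr i, x⟩ : ℕ) : ℤ) : ℂ) * _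
    push_cast
    rfl

end spec

section vvs

variable {w u : ℕ} {κ : Type} [Fintype κ] [DecidableEq κ]

theorem vv_smul (T : (κ → Fin w) → Fin u → ℂ) (x : κ → ℂ) (v : κ → Fin w → ℂ) :
    vv T (fun k => x k • v k) = (∏ k, x k) • vv T v := by
  unfold vv
  rw [Finset.smul_sum]
  refine Finset.sum_congr rfl fun J _ => ?_
  rw [smul_smul, ← Finset.prod_mul_distrib]
  rfl

theorem kills_of {I : Type} [Fintype I] [DecidableEq I] {A : I → Finset ℂ}
    (b : Basis (Σ i, {x // x ∈ A i}) ℂ (Fin w → ℂ)) (T : (κ → Fin w) → Fin u → ℂ)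
    (X : (Fin w → ℂ) →ₗ[ℂ] (Fin w → ℂ)) (z : (Σ i, {x // x ∈ A i}) → ℂ)
    (hz : ∀ a, X (b a) = z a • b a)
    (h : ∀ s : κ → Σ i, {x // x ∈ A i}, vv T (fun k => b (s k)) ≠ 0 → ∑ k, z (s k) = 0) :
    Kills T X := by
  classical
  intro f v
  have h1 : actM (mm fun J => f (T J)) X = 0 := by
    refine Basis.ext_multilinear (fun _ => b) fun s => ?_
    rw [actM_apply, MultilinearMap.zero_apply]
    have h2 : act (mm fun J => f (T J)) X (fun k => b (s k)) =
        (∑ k, z (s k)) * f (vv T fun k => b (s k)) := by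
      unfold act
      rw [Finset.sum_mul]
      refine Finset.sum_congr rfl fun k _ => ?_
      rw [hz, MultilinearMap.map_update_smul, smul_eq_mul]
      congr 1
      rw [map_vv]
      congr 1
      exact Function.update_eq_self k (fun k => b (s k))
    rw [h2]
    by_cases hv : vv T (fun k => b (s k)) = 0
    · rw [hv, map_zero, mul_zero]
    · rw [h s hv, zero_mul]
  rw [← actM_apply, h1, MultilinearMap.zero_apply]

theorem pow_mulVec {A : Matrix (Fin w) (Fin w) ℂ} {v : Fin w → ℂ} {x : ℂ}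
    (h : A.mulVec v = x • v) (M : ℕ) : (A ^ M).mulVec v = x ^ M • v := by
  induction M with
  | zero => rw [pow_zero, pow_zero, Matrix.one_mulVec, one_smul]
  | succ M ih =>
    rw [pow_succ, ← Matrix.mulVec_mulVec, h, Matrix.mulVec_smul, ih, smul_smul]
    congr 1
    ring

/-- an eigenvalue of a power is the power of an eigenvalue -/
theorem exists_eig {A : Matrix (Fin u) (Fin u) ℂ} {v : Fin u → ℂ} (hv : v ≠ 0) {l : ℂ} {M : ℕ}
    (hM : 0 < M) (h : (A ^ M).mulVec v = l • v) :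
    ∃ ν : ℂ, Module.End.HasEigenvalue (Matrix.toLin' A) ν ∧ ν ^ M = l := by
  have h1 : Module.End.HasEigenvalue (Matrix.toLin' A ^ M) l := by
    refine Module.End.hasEigenvalue_of_hasEigenvector (x := v) ?_
    rw [Module.End.hasEigenvector_iff]
    refine ⟨?_, hv⟩
    rw [Module.End.mem_eigenspace_iff, ← Matrix.toLin'_pow, Matrix.toLin'_apply]
    exact h
  have h2 := h1.mem_spectrum
  rw [spectrum.map_pow_of_pos _ hM] at h2
  obtain ⟨ν, h3, h4⟩ := h2
  exact ⟨ν, Module.End.hasEigenvalue_iff_mem_spectrum.2 h3, h4⟩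

end vvs

theorem torus : St_TORUS := by
  classical
  intro Γ _ w u ρ χ E J J' _ _ _ _ P ρU hS hP φ Q hQ hχ A A' B hrel hB hA hA' hdu hν b hb hφ κ _ _ T
    c Δ hΔ hT X hX
  have hQ0 : (Q : ℂ) ≠ 0 := by
    exact_mod_cast (by omega : Q ≠ 0)
  have hd : Dat (om E) (PP P) star := Pool.Agent.L5helper73.TC.dat hS hP
  obtain ⟨hg, htr, hdiag⟩ := hX
  choose z hz using hdiag
  refine kills_of b T X z hz fun s hs => ?_
  -- the multiplicative relation
  obtain ⟨M, hM, -, hMΔ⟩ := Subgroup.exists_pow_mem_of_index_ne_zero hΔ.index_ne_zero φ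
  have h1 := vv_equiv (hT _ hMΔ) (fun k => b (s k))
  have h2 : ∀ k, (ρ (φ ^ M)).mulVec (b (s k)) = ((s k).2 : ℂ) ^ M • b (s k) := by
    intro k
    rw [map_pow]
    exact pow_mulVec (hφ (s k)) M
  simp only [h2] at h1
  rw [vv_smul, Finset.prod_pow, map_pow, Units.val_pow_eq_pow_val, hχ, map_pow] at h1
  have h3 : (ρU φ ^ M).mulVec (vv T fun k => b (s k)) =
      ((∏ k, ((s k).2 : ℂ)) ^ M / ((Q : ℂ) ^ M) ^ c) • vv T fun k => b (s k) := by
    rw [div_eq_inv_mul, mul_smul, h1, smul_smul, inv_mul_cancel₀ (pow_ne_zero _ (pow_ne_zero _ hQ0)),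
      one_smul]
  obtain ⟨ν, h4, h5⟩ := exists_eig hs hM h3
  have hνB := hν ν h4
  have hν0 := hB ν hνB
  set cn : (Σ i, {x // x ∈ spec Q A A' i}) → ℕ := cnt s with hcn
  have h6 : ∏ k, ((s k).2 : ℂ) = _ :=
    (prod_cnt s fun a : Σ i, {x // x ∈ spec Q A A' i} => (a.2 : ℂ)).trans (prod_mex hQ hA cn)
  set n0 : ℕ := ∑ j, ∑ x : {x // x ∈ A j}, cn ⟨Sum.inl (j, false), quo hQ j (hA j) x⟩ with hn0
  have h7 : mono (both A A') (mex cn) ^ M = (Q : ℂ) ^ ((M * c : ℤ) - n0 * M) *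
      ∏ b ∈ B, b ^ ((fun b => if b = ν then (M : ℤ) else 0) b) := by
    rw [Finset.prod_eq_single ν]
    · beta_reduce
      rw [if_pos rfl, zpow_natCast, h5, h6, zpow_sub₀ hQ0, mul_pow]
      have e1 : (Q : ℂ) ^ (M * c : ℤ) = ((Q : ℂ) ^ M) ^ c := by
        rw [← pow_mul]
        exact_mod_cast rfl
      have e2 : (Q : ℂ) ^ (n0 * M : ℤ) = ((Q : ℂ) ^ n0) ^ M := by
        rw [← pow_mul]
        exact_mod_cast rfl
      rw [e1, e2]
      have e3 : ((Q : ℂ) ^ n0) ^ M ≠ 0 := pow_ne_zero _ (pow_ne_zero _ hQ0)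
      have e4 : ((Q : ℂ) ^ M) ^ c ≠ 0 := pow_ne_zero _ (pow_ne_zero _ hQ0)
      field_simp
    · intro b' _ hb'
      beta_reduce
      rw [if_neg hb', zpow_zero]
    · intro h
      exact absurd hνB h
  obtain ⟨h8, h9⟩ := hrel (mex cn) M hM _ _ h7
  -- the sum
  have h10 : ∑ k, z (s k) = ∑ a, (cn a : ℂ) * z a := by
    rw [sum_cnt s z]
    exact Finset.sum_congr rfl fun a _ => by rw [nsmul_eq_mul]
  have hdz := diag_dual hd hb hg hz
  rw [h10, sum_mex hQ hA (fun a => (cn a : ℂ)) z cn (fun _ => rfl) fun j x => hdz ⟨Sum.inl (j, true), x⟩]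
  have h11 : ∀ j, ∑ x : {x // x ∈ A j}, (mex cn (Sum.inl j) x : ℂ) *
      z ⟨Sum.inl (j, true), x⟩ = 0 := by
    intro j
    by_cases hne : Nonempty {x // x ∈ A j}
    · obtain ⟨x0⟩ := hne
      have e1 : ∀ x : {x // x ∈ A j}, (mex cn (Sum.inl j) x : ℂ) * z ⟨Sum.inl (j, true), x⟩ =
          (mex cn (Sum.inl j) x0 : ℂ) * z ⟨Sum.inl (j, true), x⟩ := by
        intro x
        rw [h8 j x x0]
      rw [Finset.sum_congr rfl fun x _ => e1 x, ← Finset.mul_sum]
      have e2 := tr_diag hd hb hz (Sum.inl (j, true))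
      rw [htr] at e2
      have e3 : ∑ x : {x // x ∈ A j}, z ⟨Sum.inl (j, true), x⟩ = 0 := e2.symm
      rw [e3, mul_zero]
    · rw [not_nonempty_iff] at hne
      rw [Finset.univ_eq_empty, Finset.sum_empty]
  have h12 : ∀ i, ∑ x : {x // x ∈ A' i}, (mex cn (Sum.inr i) x : ℂ) * z ⟨Sum.inr i, x⟩ = 0 := by
    intro i
    have e1 := (inv' hQ i (hA' i) (hdu i)).sum_comp
      (fun x : {x // x ∈ A' i} => (mex cn (Sum.inr i) x : ℂ) * z ⟨Sum.inr i, x⟩)
    have e2 : ∀ x : {x // x ∈ A' i},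
        (mex cn (Sum.inr i) (inv' hQ i (hA' i) (hdu i) x) : ℂ) *
          z ⟨Sum.inr i, inv' hQ i (hA' i) (hdu i) x⟩ =
        - ((mex cn (Sum.inr i) x : ℂ) * z ⟨Sum.inr i, x⟩) := by
      intro x
      have e3 : z ⟨Sum.inr i, inv' hQ i (hA' i) (hdu i) x⟩ = - z ⟨Sum.inr i, x⟩ :=
        hdz ⟨Sum.inr i, x⟩
      have hx := hA' i x x.2
      have e4 : mex cn (Sum.inr i) x = mex cn (Sum.inr i) (inv' hQ i (hA' i) (hdu i) x) := by
        apply h9 i x (inv' hQ i (hA' i) (hdu i) x)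
        change (x : ℂ) * ((Q : ℂ) / x) = Q
        field_simp
      rw [e3, ← e4]
      ring
    rw [Finset.sum_congr rfl fun x _ => e2 x, Finset.sum_neg_distrib] at e1
    linear_combination (-1 / 2 : ℂ) * e1
  rw [Finset.sum_eq_zero fun j _ => h11 j, Finset.sum_eq_zero fun i _ => h12 i, add_zero]

end Pool.Agent.L5helper29.OF
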